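import Pool.Agent.SHA.StmtsB

/-!
# Squad SHA, part B, module APX: approximation by exact systems
-/

set_option autoImplicit false

namespace Pool.Agent.SHA.H32

open Pool.Agent.SHA

/-- the system for `1 + t / 2` -/
theorem sys_a (syh : SYHStmt) {a : ℕ} {t : ℝ} (h1 : 1 ≤ t) (h2 : t ≤ 2) (h : Sys a (t + 1)) :
    Sys (a + 3) ((1 + t / 2) + 1) := by
  have h3 := syh a 2 (t + 1) (by norm_num) (by linarith) (by push_cast; linarith)
    (by push_cast; linarith) h
  have e : (t + 1 + ((2 : ℕ) : ℝ) + 1) / 2 = (1 + t / 2) + 1 := by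
    push_cast
    ring
  rw [e] at h3
  exact h3

/-- the system for `2 t / (1 + t)` -/
theorem sys_b (syc : SYCStmt) (syh : SYHStmt) {a : ℕ} {t : ℝ} (h1 : 1 ≤ t) (h : Sys a (t + 1)) :
    Sys (a + 2) (2 * t / (1 + t) + 1) := by
  have ht : 0 < t := by linarith
  have h3 := syc a (t + 1) (by linarith) h
  have e1 : (t + 1) / (t + 1 - 1) = 1 + 1 / t := by
    rw [add_sub_cancel_right, add_div, div_self ht.ne']
  rw [e1] at h3
  have h4 : 0 < 1 / t := by positivity
  have h5 : 1 / t ≤ 1 := by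
    rw [div_le_one ht]
    exact h1
  have h6 := syh a 1 (1 + 1 / t) le_rfl (by linarith) (by push_cast; linarith)
    (by push_cast; linarith) h3
  have e2 : (1 + 1 / t + ((1 : ℕ) : ℝ) + 1) / 2 = 3 / 2 + 1 / t / 2 := by
    push_cast
    ring
  rw [e2] at h6
  have h7 := syc (a + 1 + 1) (3 / 2 + 1 / t / 2) (by linarith) h6
  have e3 : (3 / 2 + 1 / t / 2) / (3 / 2 + 1 / t / 2 - 1) = 2 * t / (1 + t) + 1 := by
    have h8 : (3 / 2 + 1 / t / 2 - 1 : ℝ) = (1 + t) / (2 * t) := by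
      field_simp
      ring
    have h9 : (3 / 2 + 1 / t / 2 : ℝ) = (1 + 3 * t) / (2 * t) := by
      field_simp
      ring
    rw [h8, h9]
    have h10 : (1 + t : ℝ) ≠ 0 := by positivity
    field_simp
    ring
  rw [e3] at h7
  exact h7

/-- the difference of the images under `t ↦ 2 t / (1 + t)` -/
theorem diff_b {t w ε : ℝ} (ht : 1 ≤ t) (hw : 1 ≤ w) (h1 : w ≤ t) (h2 : t ≤ w + ε) :
    2 * w / (1 + w) ≤ 2 * t / (1 + t) ∧ 2 * t / (1 + t) ≤ 2 * w / (1 + w) + ε / 2 := by
  have hw' : 0 < 1 + w := by linarith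
  have ht' : 0 < 1 + t := by linarith
  constructor
  · rw [div_le_div_iff₀ hw' ht']
    nlinarith
  · have e : 2 * t / (1 + t) - 2 * w / (1 + w) = 2 * (t - w) / ((1 + t) * (1 + w)) := by
      field_simp
      ring
    have h3 : 4 ≤ (1 + t) * (1 + w) := by nlinarith
    have h4 : 2 * (t - w) / ((1 + t) * (1 + w)) ≤ 2 * (t - w) / 4 :=
      div_le_div_of_nonneg_left (by linarith) (by norm_num) h3
    have h5 : 2 * (t - w) / 4 ≤ ε / 2 := by linarith
    linarith

/-- APX -/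
theorem apx (syu : SYUStmt) (syc : SYCStmt) (syh : SYHStmt) : APXStmt := by
  intro n
  induction n with
  | zero =>
    intro x h1 h2
    have s2 : Sys 2 (1 + 1) := syu 1 1 sys_one
    have s3 : Sys 3 (2 + 1) := by
      have h3 := syu 2 (1 + 1) s2
      have e : (1 + 1 + 1 : ℝ) = 2 + 1 := by norm_num
      rwa [e] at h3
    refine ⟨⟨3, 2, by norm_num, s3, h2, le_rfl, ?_⟩, ⟨2, 1, by norm_num, s2, le_rfl, h1, ?_⟩⟩
    · rw [pow_zero]
      linarith
    · rw [pow_zero]
      linarith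
  | succ n ih =>
    intro x h1 h2
    have hpow : ((1 : ℝ) / 2) ^ (n + 1) = (1 / 2) ^ n / 2 := by
      rw [pow_succ]
      ring
    rw [hpow]
    by_cases hx : 3 / 2 ≤ x
    · obtain ⟨⟨a, z, ha, hs, hz1, hz2, hz3⟩, ⟨a', z', ha', hs', hz1', hz2', hz3'⟩⟩ :=
        ih (2 * x - 2) (by linarith) (by linarith)
      refine ⟨⟨a + 3, 1 + z / 2, by omega, sys_a syh (by linarith) hz2 hs, by linarith,
        by linarith, by linarith⟩, ⟨a' + 3, 1 + z' / 2, by omega,
        sys_a syh hz1' (by linarith) hs', by linarith, by linarith, by linarith⟩⟩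
    · rw [not_le] at hx
      set w : ℝ := x / (2 - x) with hw
      have h2x : 0 < 2 - x := by linarith
      have hwx : w * (2 - x) = x := div_mul_cancel₀ x h2x.ne'
      have hw1 : 1 ≤ w := by
        rw [hw, le_div_iff₀ h2x]
        linarith
      have hw3 : w ≤ 3 := by
        rw [hw, div_le_iff₀ h2x]
        linarith
      have hxw : x = 2 * w / (1 + w) := by
        have h3 : (1 + w : ℝ) ≠ 0 := by positivity
        rw [eq_div_iff h3]
        linarith
      -- approximations of `w`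
      have key : (∃ (a : ℕ) (t : ℝ), a ≤ 3 * n + 4 ∧ Sys a (t + 1) ∧ w ≤ t ∧
            t ≤ w + (1 / 2) ^ n) ∧
          (∃ (a : ℕ) (t : ℝ), a ≤ 3 * n + 4 ∧ Sys a (t + 1) ∧ 1 ≤ t ∧ t ≤ w ∧
            w ≤ t + (1 / 2) ^ n) := by
        by_cases hw2 : w ≤ 2
        · obtain ⟨⟨a, z, ha, hs, hz1, hz2, hz3⟩, ⟨a', z', ha', hs', hz1', hz2', hz3'⟩⟩ :=
            ih w hw1 hw2
          exact ⟨⟨a, z, by omega, hs, hz1, hz3⟩, ⟨a', z', by omega, hs', hz1', hz2', hz3'⟩⟩
        · rw [not_le] at hw2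
          obtain ⟨⟨a, z, ha, hs, hz1, hz2, hz3⟩, ⟨a', z', ha', hs', hz1', hz2', hz3'⟩⟩ :=
            ih (w - 1) (by linarith) (by linarith)
          exact ⟨⟨a + 1, z + 1, by omega, syu a (z + 1) hs, by linarith, by linarith⟩,
            ⟨a' + 1, z' + 1, by omega, syu a' (z' + 1) hs', by linarith, by linarith,
              by linarith⟩⟩
      obtain ⟨⟨a, t, ha, hs, ht1, ht2⟩, ⟨a', t', ha', hs', ht0', ht1', ht2'⟩⟩ := key
      have hup := diff_b (by linarith : (1 : ℝ) ≤ t) hw1 ht1 ht2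
      have hlo := diff_b hw1 ht0' ht1' ht2'
      rw [← hxw] at hup hlo
      refine ⟨⟨a + 2, 2 * t / (1 + t), by omega, sys_b syc syh (by linarith) hs, hup.1, ?_,
        hup.2⟩, ⟨a' + 2, 2 * t' / (1 + t'), by omega, sys_b syc syh ht0' hs', ?_, hlo.1,
        hlo.2⟩⟩
      · rw [div_le_iff₀ (by linarith)]
        linarith
      · rw [le_div_iff₀ (by linarith)]
        linarith

end Pool.Agent.SHA.H32
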